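import Mathlib

set_option autoImplicit false
set_option maxHeartbeats 400000

namespace Pool.Agent.Results.MP_8f3806_al.TwinFree

open scoped commutatorElement Classical

variable {n : ℕ} (Γ : SimpleGraph (Fin n))

/-- `w` lies in the closed neighbourhood of `v`. -/
def Nb (v w : Fin n) : Prop := w = v ∨ Γ.Adj v w

/-- The element `g^v` of `G^V`. -/
noncomputable def gp {G : Type} [Group G] (g : G) (v : Fin n) : Fin n → G :=
  fun w => if Nb Γ v w then g else 1

/-- `Γ` is `G`-RA. -/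
def RA (G : Type) [Group G] : Prop :=
  ∀ f : Fin n → G, (∀ v, f v ∈ commutator G) → f ∈ Subgroup.closure {x | ∃ (g : G) (v : Fin n), x = gp Γ g v}

/-- The subgroup `Comm_b(G, Γ)`. -/
def CommB (G : Type) [Group G] : Subgroup (Fin n → G) :=
  Subgroup.closure {x | ∃ (g h : G) (v w : Fin n), x = ⁅gp Γ g v, gp Γ h w⁆}

/-- `d` is the list of elementary divisors of the RA matrix. -/
def ElemDiv (d : Fin n → ℕ) : Prop :=
  (∀ i j, i ≤ j → d i ∣ d j) ∧ ∃ b : Module.Basis (Fin n) ℤ (Fin n → ℤ),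
    Submodule.span ℤ {x | ∃ u v, x = fun w => if Nb Γ u w ∧ Nb Γ v w then (1 : ℤ) else 0} =
      Submodule.span ℤ (Set.range fun i => (d i : ℤ) • b i)

theorem Nb_symm (v w : Fin n) : Nb Γ v w ↔ Nb Γ w v := by
  simp [Nb, eq_comm, Γ.adj_comm]

@[ext] structure Aff (F : Type) [Field F] where
  t : F
  u : Fˣ

variable {F : Type} [Field F]

instance : Mul (Aff F) := ⟨fun x y => ⟨x.t + x.u * y.t, x.u * y.u⟩⟩
instance : One (Aff F) := ⟨⟨0, 1⟩⟩
instance : Inv (Aff F) := ⟨fun x => ⟨-(x.u⁻¹.1 * x.t), x.u⁻¹⟩⟩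
theorem mul_def (x y : Aff F) : x * y = ⟨x.t + x.u * y.t, x.u * y.u⟩ := rfl
theorem one_def : (1 : Aff F) = ⟨0, 1⟩ := rfl
theorem inv_def (x : Aff F) : x⁻¹ = ⟨-(x.u⁻¹.1 * x.t), x.u⁻¹⟩ := rfl

instance : Group (Aff F) := Group.ofLeftAxioms
  (fun x y z => by ext <;> simp [mul_def, mul_add, mul_assoc, add_assoc])
  (fun x => by simp [mul_def, one_def]) fun x => by simp [mul_def, one_def, inv_def]

instance [Finite F] : Finite (Aff F) :=
  Finite.of_injective (fun x => (x.t, x.u)) fun _ _ h =>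
    Aff.ext (congrArg Prod.fst h) (congrArg Prod.snd h)

theorem comm_def (g h : Aff F) : ⁅g, h⁆ = ⟨(1 - h.u) * g.t - (1 - g.u) * h.t, 1⟩ := by
  ext
  · simp [commutatorElement_def, mul_def, inv_def]
    field_simp
    ring
  · simp [commutatorElement_def, mul_def, inv_def]

def tau : Multiplicative F →* Aff F where
  toFun c := ⟨c.toAdd, 1⟩
  map_one' := rfl
  map_mul' a b := by simp [mul_def]

def T : Multiplicative (Fin n → F) →* (Fin n → Aff F) where
  toFun x v := ⟨x.toAdd v, 1⟩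
  map_one' := rfl
  map_mul' a b := by ext <;> simp [mul_def]

theorem comm_gp (g h : Aff F) (v w : Fin n) : ⁅gp Γ g v, gp Γ h w⁆ = T (.ofAdd
    (((1 - h.u) * g.t - (1 - g.u) * h.t) • fun z => if Nb Γ v z ∧ Nb Γ w z then (1 : F) else 0)) := by
  funext z
  change ⁅gp Γ g v z, gp Γ h w z⁆ = _
  by_cases h1 : Nb Γ v z <;> by_cases h2 : Nb Γ w z <;> simp [gp, h1, h2, comm_def, T, one_def]

theorem comm_eq (a : Fˣ) (ha : (1 - a : F) ≠ 0) : commutator (Aff F) = tau.range := by
  refine le_antisymm (Subgroup.commutator_le.2 fun g _ h _ => ⟨.ofAdd _, (comm_def g h).symm⟩) ?_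
  rintro - ⟨c, rfl⟩
  have : tau c = ⁅(⟨(1 - a.1)⁻¹ * c.toAdd, 1⟩ : Aff F), ⟨0, a⟩⁆ := by simp [comm_def, tau, ha]
  exact this ▸ Subgroup.commutator_mem_commutator trivial trivial

theorem commB_eq (a : Fˣ) (ha : (1 - a : F) ≠ 0) : CommB Γ (Aff F) = (Submodule.span F
    {x | ∃ u v, x = fun w => if Nb Γ u w ∧ Nb Γ v w then (1 : F) else 0}).toAddSubgroup.toSubgroup.map T := by
  refine le_antisymm ((Subgroup.closure_le _).2 ?_) ?_
  · rintro - ⟨g, h, v, w, rfl⟩
    refine ⟨_, ?_, (comm_gp Γ g h v w).symm⟩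
    refine Submodule.smul_mem (M := Fin n → F) _ _ (Submodule.subset_span ?_)
    exact ⟨v, w, rfl⟩
  · rintro - ⟨x, hx, rfl⟩
    suffices ∀ c : F, T (.ofAdd (c • x.toAdd)) ∈ CommB Γ (Aff F) by simpa using this 1
    replace hx : x.toAdd ∈ Submodule.span F _ := hx
    generalize x.toAdd = y at hx
    induction hx using Submodule.span_induction with
    | mem y hy =>
      obtain ⟨u, v, rfl⟩ := hy
      refine fun c => Subgroup.subset_closure ⟨⟨(1 - a.1)⁻¹ * c, 1⟩, ⟨0, a⟩, u, v, ?_⟩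
      simp [comm_gp, ha]
    | zero => simp
    | add y z _ _ hy hz => exact fun c => by simpa using mul_mem (hy c) (hz c)
    | smul e y _ hy => exact fun c => by simpa [mul_smul] using hy (c * e)

theorem ra (a : Fˣ) (ha : (1 - a : F) ≠ 0) (tw : ∀ u v, (∀ w, Nb Γ u w ↔ Nb Γ v w) → u = v) :
    RA Γ (Aff F) := by
  intro f hf
  generalize hH : Subgroup.closure {x | ∃ (g : Aff F) (v : Fin n), x = gp Γ g v} = H
  have h0 : ∀ (g : Aff F) v, gp Γ g v ∈ H := fun g v => hH ▸ Subgroup.subset_closure ⟨g, v, rfl⟩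
  let M : Submodule F (Fin n → F) :=
    { carrier := {x | ∀ c : F, T (.ofAdd (c • x)) ∈ H}
      add_mem' := fun hx hy c => by simpa using mul_mem (hx c) (hy c)
      zero_mem' := fun c => by simp
      smul_mem' := fun e x hx c => by simpa [mul_smul] using hx (c * e) }
  have h1 : ∀ z, ∀ x ∈ M, (fun w => if Nb Γ z w then x w else 0) ∈ M := fun z x hx c => by
    have : T (.ofAdd (c • fun w => if Nb Γ z w then x w else 0)) =
        ⁅T (.ofAdd (((1 - a.1)⁻¹ * c) • x)), gp Γ ⟨0, a⟩ z⁆ := by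
      funext w
      change _ = ⁅T (F := F) _ w, gp Γ (⟨0, a⟩ : Aff F) z w⁆
      by_cases h : Nb Γ z w <;> simp [gp, h, comm_def, T, one_def, ha, mul_assoc]
    rw [this, commutatorElement_def]
    exact mul_mem (mul_mem (mul_mem (hx _) (h0 _ _)) (inv_mem (hx _))) (inv_mem (h0 _ _))
  have h2 : ∀ (v) (S : Finset (Fin n)), ∃ x ∈ M, x v = 1 ∧ ∀ w ∈ S, w ≠ v → x w = 0 := by
    intro v S
    induction S using Finset.induction_on with
    | empty =>
      refine ⟨fun w => if Nb Γ v w then 1 else 0, fun c => ?_, by simp [Nb], by simp⟩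
      convert h0 ⟨c, 1⟩ v
      funext w
      by_cases h : Nb Γ v w <;> simp [gp, h, T, one_def]
    | insert w S _ ih =>
      obtain ⟨x, hx, e1, e2⟩ := ih
      by_cases hw : w = v
      · exact ⟨x, hx, e1, by simpa [hw] using e2⟩
      obtain ⟨z, hz⟩ := not_forall.1 fun k => hw (tw w v k)
      rw [Nb_symm Γ w, Nb_symm Γ v] at hz
      by_cases hv : Nb Γ z v
      · refine ⟨_, h1 z x hx, by simp [hv, e1], ?_⟩
        simp only [Finset.forall_mem_insert]
        exact ⟨fun _ => if_neg (by tauto), fun y hy hy' => by simp [e2 y hy hy']⟩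
      · refine ⟨_, sub_mem hx (h1 z x hx), by simp [hv, e1], ?_⟩
        simp only [Finset.forall_mem_insert]
        exact ⟨fun _ => by simp [show Nb Γ z w by simpa [hv] using hz], fun y hy hy' => by simp [e2 y hy hy']⟩
  rw [comm_eq a ha] at hf
  choose c hc using hf
  have h3 : (fun v => (c v).toAdd) ∈ M := by
    rw [← Finset.univ_sum_single fun v => (c v).toAdd]
    refine sum_mem fun v _ => ?_
    obtain ⟨x, hx, e1, e2⟩ := h2 v Finset.univ
    convert M.smul_mem (c v).toAdd hx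
    funext w
    by_cases h : w = v
    · simp [h, e1]
    · simp [h, e2 w (Finset.mem_univ _) h]
  convert h3 1
  funext v
  simp [← hc, T, tau]

theorem rank (d : Fin n → ℕ) (hd : ElemDiv Γ d) (hp : ∀ i, d i ≠ 1 → (d i : F) = 0) :
    Module.finrank F (Submodule.span F
      {x | ∃ u v, x = fun w => if Nb Γ u w ∧ Nb Γ v w then (1 : F) else 0}) =
      n - (Finset.univ.filter fun i => d i ≠ 1).card := by
  obtain ⟨-, b, hb⟩ := hd
  let φ : (Fin n → ℤ) →ₗ[ℤ] (Fin n → F) := (Int.castAddHom F).toIntLinearMap.compLeft _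
  have h1 : ∀ s : Set (Fin n → ℤ),
      Submodule.span F (φ '' s) = Submodule.span F ((Submodule.span ℤ s).map φ) := fun s => by
    rw [Submodule.map_span, Submodule.span_span_of_tower]
  have h2 : LinearIndependent F fun i => φ (b i) := by
    refine linearIndependent_of_top_le_span_of_card_eq_finrank ?_ (by simp)
    rw [show (Set.range fun i => φ (b i)) = φ '' Set.range b from Set.range_comp _ _, h1, b.span_eq,
      ← (Pi.basisFun ℤ (Fin n)).span_eq, ← h1, ← (Pi.basisFun F (Fin n)).span_eq]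
    refine Submodule.span_mono ?_
    rintro - ⟨i, rfl⟩
    exact ⟨_, ⟨i, rfl⟩, by ext j; simp [φ, Pi.single_apply]⟩
  have h3 : {x | ∃ u v, x = fun w => if Nb Γ u w ∧ Nb Γ v w then (1 : F) else 0} =
      φ '' {x | ∃ u v, x = fun w => if Nb Γ u w ∧ Nb Γ v w then (1 : ℤ) else 0} := by
    ext x
    constructor
    · rintro ⟨u, v, rfl⟩
      exact ⟨_, ⟨u, v, rfl⟩, by ext j; simp [φ]⟩
    · rintro ⟨-, ⟨u, v, rfl⟩, rfl⟩
      exact ⟨u, v, by ext j; simp [φ]⟩
  have h4 : Submodule.span F (φ '' Set.range fun i => (d i : ℤ) • b i) =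
      Submodule.span F (Set.range fun i : {i // ¬ d i ≠ 1} => φ (b i)) := by
    refine le_antisymm (Submodule.span_le.2 ?_) (Submodule.span_mono ?_)
    · rintro - ⟨-, ⟨i, rfl⟩, rfl⟩
      by_cases h : d i = 1
      · exact Submodule.subset_span ⟨⟨i, by simp [h]⟩, by simp [h]⟩
      · rw [map_smul, ← Int.cast_smul_eq_zsmul F, Int.cast_natCast, hp i h, zero_smul]
        exact zero_mem _
    · rintro - ⟨i, rfl⟩
      exact ⟨_, ⟨i, rfl⟩, by simp [not_not.1 i.2]⟩
  rw [h3, h1, hb, ← h1, h4]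
  refine (finrank_span_eq_card (h2.comp _ Subtype.val_injective)).trans ?_
  rw [Fintype.card_subtype_compl, Fintype.card_fin, Fintype.card_subtype]

theorem result {n : ℕ} (Γ : SimpleGraph (Fin n)) (d : Fin n → ℕ) (hd : ElemDiv Γ d) :
    (∃ (G : Type) (_ : Group G), Finite G ∧ (∃ a b : G, a * b ≠ b * a) ∧
      Nonempty (CommB Γ G ≃* (Fin (n - (Finset.univ.filter fun i => d i ≠ 1).card) → commutator G)) ∧
      RA Γ G) ↔ ∀ u v, (∀ w, Nb Γ u w ↔ Nb Γ v w) → u = v := by
  constructor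
  · rintro ⟨G, _, -, ⟨a, b, hab⟩, -, h⟩ u v huv
    by_contra hne
    have h1 : ∀ f ∈ Subgroup.closure {x | ∃ (g : G) (v : Fin n), x = gp Γ g v}, f u = f v := by
      intro f hf
      induction hf using Subgroup.closure_induction with
      | mem x hx =>
        obtain ⟨g, w, rfl⟩ := hx
        simp [gp, Nb_symm Γ w, huv]
      | one => rfl
      | mul x y _ _ hx hy => simp [hx, hy]
      | inv x _ hx => simp [hx]
    have h2 := h1 _ (h (Pi.mulSingle u ⁅a, b⁆) fun w => by
      rw [Pi.mulSingle_apply]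
      split_ifs
      exacts [Subgroup.commutator_mem_commutator trivial trivial, one_mem _])
    rw [Pi.mulSingle_eq_same, Pi.mulSingle_eq_of_ne' hne] at h2
    exact hab (commutatorElement_eq_one_iff_mul_comm.1 h2)
  · intro tw
    obtain ⟨p, hp, hpd⟩ : ∃ p : ℕ, p.Prime ∧ ∀ i, d i ≠ 1 → p ∣ d i := by
      by_cases h : ∃ i, d i ≠ 1
      · obtain ⟨i, hi, hm⟩ := exists_minimal_of_wellFoundedLT _ h
        obtain ⟨p, hp, hpd⟩ := Nat.exists_prime_and_dvd hi
        exact ⟨p, hp, fun j hj => hpd.trans (hd.1 i j ((le_total i j).elim id (hm hj)))⟩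
      · exact ⟨2, Nat.prime_two, fun i hi => (h ⟨i, hi⟩).elim⟩
    have := Fact.mk hp
    let F := GaloisField p 2
    obtain ⟨a, ha0, ha1⟩ : ∃ a : F, a ≠ 0 ∧ a ≠ 1 := by
      by_contra! h
      have h1 := Set.ncard_le_ncard (s := Set.univ) (t := {(0 : F), 1})
        (fun x _ => by by_cases hx : x = 0 <;> simp [hx, h x])
      rw [Set.ncard_univ, GaloisField.card p 2 two_ne_zero, Set.ncard_pair zero_ne_one] at h1
      nlinarith [hp.two_le]
    have ha : (1 - (Units.mk0 a ha0 : Fˣ) : F) ≠ 0 := sub_ne_zero.2 ha1.symm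
    refine ⟨Aff F, inferInstance, inferInstance, ⟨⟨1, 1⟩, ⟨0, Units.mk0 a ha0⟩, fun h => ha1 ?_⟩,
      ⟨?_⟩, ra Γ _ ha tw⟩
    · simpa [mul_def] using (congrArg Aff.t h).symm
    · rw [commB_eq Γ _ ha, comm_eq _ ha]
      have hT : Function.Injective (T : Multiplicative (Fin n → F) → _) := fun x y h =>
        Multiplicative.toAdd.injective (funext fun v => congrArg Aff.t (congrFun h v))
      have hτ : Function.Injective (tau : Multiplicative F → _) := fun x y h => congrArg Aff.t h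
      have e := LinearEquiv.ofFinrankEq (R := F) _
        (Fin (n - (Finset.univ.filter fun i => d i ≠ 1).card) → F)
        ((rank Γ d hd fun i hi => (CharP.cast_eq_zero_iff F p _).2 (hpd i hi)).trans (by simp))
      refine (Subgroup.equivMapOfInjective _ _ hT).symm.trans (MulEquiv.trans ?_
        ((AddEquiv.toMultiplicative e.toAddEquiv).trans ((MulEquiv.funMultiplicative _ _).trans
          (MulEquiv.piCongrRight fun _ => MonoidHom.ofInjective hτ))))
      exact ⟨⟨fun x => .ofAdd ⟨x.1.toAdd, x.2⟩, fun x => ⟨.ofAdd x.toAdd.1, x.toAdd.2⟩,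
        fun _ => rfl, fun _ => rfl⟩, fun _ _ => rfl⟩

end Pool.Agent.Results.MP_8f3806_al.TwinFree
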